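import Mathlib
import Pool.Agent.Helper68.YoungIso

set_option autoImplicit false

/-!
# The number of antichains of the restricted Young lattice L(n,n)

`log₂ A(n)` is of exact order `binom(2n, n) / n^{3/2}`.

Idea of the upper bound.  A word with `n` ones among `2n` letters is cut into two halves of length `n`;
words with `k` ones in the first half form, with a weaker order, the product `L(k, n-k) × L(n-k, k)`.
By Dilworth's theorem both factors are partitioned into chains, and an antichain of a product of two
chains is determined by its two projections; so a product `P × Q` has at most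
`2 ^ (|P| w(Q) + |Q| w(P))` antichains.  The widths are `O(|P| / n^{3/2})`: give the exchange of the letters
`p, p + 1` the weight `p (n - p)`; then inflow minus outflow at a word depends only on its rank, antichains can be
pushed to the middle rank without losing outflow, and the middle rank has a small outflow.
-/

namespace Pool.Agent.Results.MP_269158_co.AntichainCountOrder

open Pool.Agent.Helper68

/-- The restricted Young lattice `L(n,n)`: integer partitions `λ_1 ≥ ... ≥ λ_n ≥ 0` with `λ_1 ≤ n` (that is, all
parts at most `n`), ordered by containment of diagrams, i.e. pointwise (the order of the subtype of functions). -/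
abbrev L (n : ℕ) : Type := {f : Fin n → ℕ // Antitone f ∧ ∀ i, f i ≤ n}

/-- The number `A(n)` of antichains of `L(n,n)`, including the empty one. -/
noncomputable def A (n : ℕ) : ℕ := Nat.card {S : Set (L n) // IsAntichain (· ≤ ·) S}

/-- sanity check: the order is containment of diagrams -/
lemma le_iff (n : ℕ) (f g : L n) : f ≤ g ↔ ∀ i, f.1 i ≤ g.1 i := Iff.rfl

lemma rpow_three_half {x : ℝ} (hx : 0 < x) : x ^ (3 / 2 : ℝ) = x * Real.sqrt x := by
  rw [Real.sqrt_eq_rpow, show (3 / 2 : ℝ) = 1 + 1 / 2 by norm_num, Real.rpow_add hx, Real.rpow_one]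

/-- `log₂ A(n) = Θ(binom(2n, n) / n^{3/2})`. -/
theorem result : ∃ c C : ℝ, 0 < c ∧ 0 < C ∧ ∀ n : ℕ, 1 ≤ n →
    c * (((2 * n).choose n : ℝ) / (n : ℝ) ^ (3 / 2 : ℝ)) ≤ Real.logb 2 (A n) ∧
    Real.logb 2 (A n) ≤ C * (((2 * n).choose n : ℝ) / (n : ℝ) ^ (3 / 2 : ℝ)) := by
  refine ⟨1 / 64, 62914560, by norm_num, by norm_num, ?_⟩
  intro n hn
  have hn0 : (0 : ℝ) < n := by exact_mod_cast hn
  rw [rpow_three_half hn0, ← Nat.centralBinom_eq_two_mul_choose]
  have hA : A n = Nat.card {S : Finset (Wd (2 * n) n) // IsAntichain (· ≤ ·) (S : Set (Wd (2 * n) n))} :=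
    card_antichains_congr (youngIso n)
  constructor
  · obtain ⟨T, hT, hTc⟩ := level n hn
    have h1 := card_antichains_ge T hT
    rw [← hA] at h1
    have h2 : ((2 : ℝ) ^ T.card) ≤ A n := by exact_mod_cast h1
    have h3 : Real.logb 2 ((2 : ℝ) ^ T.card) ≤ Real.logb 2 (A n) :=
      Real.logb_le_logb_of_le (by norm_num) (by positivity) h2
    rw [Real.logb_pow, Real.logb_self_eq_one (by norm_num), mul_one] at h3
    calc 1 / 64 * ((n.centralBinom : ℝ) / (n * Real.sqrt n)) =
        (1 / 64) * (n.centralBinom : ℝ) / (n * Real.sqrt n) := by ring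
      _ ≤ T.card := hTc
      _ ≤ _ := h3
  · have h1 := antichains_Wd_le n
    rw [← hA] at h1
    have h2 : (A n : ℝ) ≤ (2 : ℝ) ^ (∑ k ∈ Finset.range (n + 1),
        (n.choose k * width n (n - k) + n.choose (n - k) * width n k)) := by exact_mod_cast h1
    have hpos : (0 : ℝ) < A n := by
      obtain ⟨T, hT, _⟩ := level n hn
      have h3 := card_antichains_ge T hT
      rw [← hA] at h3
      have h4 : 0 < A n := lt_of_lt_of_le (by positivity) h3
      exact_mod_cast h4
    have h3 := Real.logb_le_logb_of_le (b := 2) (by norm_num) hpos h2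
    rw [Real.logb_pow, Real.logb_self_eq_one (by norm_num), mul_one] at h3
    calc Real.logb 2 (A n) ≤ _ := h3
      _ ≤ 62914560 * (n.centralBinom : ℝ) / (n * Real.sqrt n) := exponent_le n hn
      _ = _ := by ring

end Pool.Agent.Results.MP_269158_co.AntichainCountOrder
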